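import Mathlib
import Pool.Agent.N824.C2.CurvR

/-!
# Almost Einstein metrics from coarse metrics

Let `X` be a closed manifold of dimension `n` and `lam`, `ε` real numbers. We
consider Riemannian metrics on `X` which are induced by immersions `F : X → ℝᴺ` (for large `N` these
are all metrics, by Nash's theorem, which is not used here), with `|Ric - lam g| < ε g`, that is
`|Ric(v, v) - lam g(v, v)| < ε g(v, v)` for all tangent vectors `v ≠ 0`. By Gauss's equation
`Ric(v, v) = ⟪II(v, v), tr II⟫ - |II(v, ·)|²`, the trace and the norm being taken for the induced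
metric, where the second fundamental form `II` is the normal component of the second
derivative of `F` in a parametrization of `X`.

The theorem characterizes when there is a smooth immersion `F : X → ℝᴺ` of this kind: this is
the case if and only if there are *coarse* immersions of this kind. That is, for arbitrarily small
scales `r` (all `r` in a set `S` accumulating at `0`) there are maps `f r : X → ℝᴺ` with the following
property. They need not be continuous, they are unrelated for different `r`, and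
nothing is assumed about `f r` at scales different from `r`. Near each point `x` there is
a smooth parametrization `A` of `X`, `κ`-bi-Lipschitz for some function `d(x, y)`, such that for all
`p` near `0` the map `f r ∘ A` is, on the ball of radius `κ² r` about `p`, *in the mean* within
`δ r²` of a quadratic map with first derivative `L` and second derivative `Q` at `p`, where
`(1 + ‖L‖ + ‖Q‖) r ≤ δ τ(r)` with `τ(r) → 0`, and all `L'`, `Q'` with `‖L' - L‖` and `‖Q' - Q‖` at
most `C κ^(2n+4) δ` are the derivatives of immersions with `|Ric - lam g| < ε g` for the induced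
metric. Here `L`, `Q`, `δ` depend on `p` and `r` in any way and
`C` is any sufficiently large constant which depends on `n` only. The metrics may degenerate or blow
up with `r`.

The closed manifolds which have such a metric for all `ε > 0` and one of `lam = 1, -1` contain the
manifolds with an Einstein metric which is not Ricci-flat. It is not known whether all manifolds of
dimension at least five are of this kind.
-/

set_option autoImplicit false

open Set Filter Topology Metric MeasureTheory Function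
open scoped Manifold ContDiff InnerProductSpace

noncomputable section

namespace Pool.Agent.Results.MP_ebfab8_gt.CoarseAlmostEinstein

/-- `ℝᵐ` -/
abbrev R (m : ℕ) := EuclideanSpace ℝ (Fin m)

/-- Lebesgue measure on `ℝᵐ` -/
def vol (m : ℕ) : Measure (R m) := volume

/-- the standard basis of `ℝᵐ` -/
def std (m : ℕ) (i : Fin m) : R m := EuclideanSpace.single i 1

/-! In the following definitions `V = ℝⁿ` is the model space of `X`, `W = ℝᴺ` the target. A
symmetric bilinear map `V × V → W` is an element of `V →L[ℝ] V →L[ℝ] W`. -/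

section

variable {V W : Type} [NormedAddCommGroup V] [InnerProductSpace ℝ V] [FiniteDimensional ℝ V]
  [NormedAddCommGroup W] [InnerProductSpace ℝ W] [FiniteDimensional ℝ W]

/-- the inverse of the metric `⟪L u, L v⟫` induced by `L` -/
def invMetric (L : V →L[ℝ] W) : V →L[ℝ] V :=
  ContinuousLinearMap.inverse ((ContinuousLinearMap.adjoint L).comp L)

/-- the second fundamental form of a map with the derivatives `L` and `Q`: the component of
`Q u v` orthogonal to the image of `L` -/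
def II (L : V →L[ℝ] W) (Q : V →L[ℝ] V →L[ℝ] W) (u v : V) : W :=
  Q u v - L (invMetric L (ContinuousLinearMap.adjoint L (Q u v)))

/-- the Ricci curvature `Ric(v, v)` of the induced metric, by Gauss's equation: the inner product of
`II(v, v)` and the trace of `II` minus the square of the norm of `II(v, ·)`, for the induced metric;
`e` is an orthonormal basis of `V` -/
def ricCurv {ι : Type} [Fintype ι] (e : ι → V) (L : V →L[ℝ] W)
    (Q : V →L[ℝ] V →L[ℝ] W) (v : V) : ℝ :=
  ⟪II L Q v v, ∑ i, II L Q (invMetric L (e i)) (e i)⟫_ℝ -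
    ∑ i, ⟪II L Q v (invMetric L (e i)), II L Q v (e i)⟫_ℝ

/-- maps with the derivatives `L` and `Q` are immersions and the induced metric `g` satisfies
`|Ric - lam g| < ε g` -/
def AlmostEinstein {ι : Type} [Fintype ι] (e : ι → V) (lam ε : ℝ) (L : V →L[ℝ] W)
    (Q : V →L[ℝ] V →L[ℝ] W) : Prop :=
  Injective L ∧ ∀ v : V, ‖v‖ = 1 → |ricCurv e L Q v - lam * ‖L v‖ ^ 2| < ε * ‖L v‖ ^ 2

/-- `Q` is symmetric -/
def Symm (Q : V →L[ℝ] V →L[ℝ] W) : Prop := ∀ u v, Q u v = Q v u

/-- all derivatives at distance at most `b` from `L` and `Q` satisfy `AlmostEinstein` -/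
def EinsteinMargin {ι : Type} [Fintype ι] (e : ι → V) (lam ε b : ℝ) (L : V →L[ℝ] W)
    (Q : V →L[ℝ] V →L[ℝ] W) : Prop :=
  ∀ (L' : V →L[ℝ] W) (Q' : V →L[ℝ] V →L[ℝ] W), Symm Q' → ‖L' - L‖ ≤ b → ‖Q' - Q‖ ≤ b →
    AlmostEinstein e lam ε L' Q'

/-- the quadratic map with the value `c` and the derivatives `L` and `Q` at `p` -/
def quad (c : W) (L : V →L[ℝ] W) (Q : V →L[ℝ] V →L[ℝ] W) (p s : V) : W :=
  c + L (s - p) + (1 / 2 : ℝ) • Q (s - p) (s - p)

/-- `h` is integrable on the ball of radius `a` about `p` and its distance to a quadratic map with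
the derivatives `L` and `Q` at `p` has integral at most `b` over this ball. -/
def QuadInMean [MeasurableSpace V] (μ : Measure V) (h : V → W) (p : V) (a b : ℝ)
    (L : V →L[ℝ] W) (Q : V →L[ℝ] V →L[ℝ] W) : Prop :=
  IntegrableOn h (closedBall p a) μ ∧ ∃ c : W, ∫ q in closedBall p a, ‖h q - quad c L Q p q‖ ∂μ ≤ b

variable {X : Type} [TopologicalSpace X] [ChartedSpace V X]

/-- smooth maps -/
def Smooth (V : Type) [NormedAddCommGroup V] [InnerProductSpace ℝ V] [ChartedSpace V X]
    (F : X → W) : Prop := ContMDiff 𝓘(ℝ, V) 𝓘(ℝ, W) ∞ F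

/-- `A` is a smooth parametrization near `x = A 0` -/
def Param (A : V → X) (x : X) : Prop :=
  A 0 = x ∧ IsLocalDiffeomorphAt 𝓘(ℝ, V) 𝓘(ℝ, V) ∞ A 0

/-- `F` is an immersion at `x` and the induced metric `g` satisfies `|Ric - lam g| < ε g` at `x` -/
def AlmostEinsteinAt {ι : Type} [Fintype ι] (e : ι → V) (lam ε : ℝ) (F : X → W) (x : X) : Prop :=
  ∃ A : V → X, Param A x ∧
    AlmostEinstein e lam ε (fderiv ℝ (fun z => F (A z)) 0)
      (fderiv ℝ (fderiv ℝ fun z => F (A z)) 0)

/-- `A` is `κ`-bi-Lipschitz for `d` on the ball of radius `ρ`. -/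
def BiLip (d : X → X → ℝ) (A : V → X) (κ ρ : ℝ) : Prop :=
  1 ≤ κ ∧ 0 < ρ ∧ ∀ p q : V, ‖p‖ < ρ → ‖q‖ < ρ →
    d (A p) (A q) ≤ κ * ‖p - q‖ ∧ ‖p - q‖ ≤ κ * d (A p) (A q)

/-- the maps `f r` are coarse immersions at `x` with induced metrics satisfying
`|Ric - lam g| < ε g`, each one at its scale `r ∈ S`; `n` is the dimension of `X` -/
def CoarseAt {ι : Type} [Fintype ι] [MeasurableSpace V] (e : ι → V) (n : ℕ) (μ : Measure V)
    (C lam ε : ℝ) (d : X → X → ℝ) (S : Set ℝ) (f : ℝ → X → W) (x : X) : Prop :=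
  ∃ (A : V → X) (κ ρ : ℝ) (τ : ℝ → ℝ), Param A x ∧ BiLip d A κ ρ ∧ Tendsto τ (𝓝[>] 0) (𝓝 0) ∧
    ∀ p, ‖p‖ < ρ → ∀ r ∈ S, 0 < r → r < ρ →
      ∃ (L : V →L[ℝ] W) (Q : V →L[ℝ] V →L[ℝ] W) (δ : ℝ), 0 ≤ δ ∧ Symm Q ∧
        (1 + ‖L‖ + ‖Q‖) * r ≤ δ * τ r ∧
        QuadInMean μ (fun z => f r (A z)) p (κ ^ 2 * r) (δ * r ^ (n + 2)) L Q ∧
        EinsteinMargin e lam ε (C * κ ^ (2 * n + 4) * δ) L Q

end

theorem result (n : ℕ) : ∃ C₀ : ℝ, ∀ C : ℝ, C₀ ≤ C → ∀ (lam ε : ℝ) (N : ℕ) (X : Type)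
    [TopologicalSpace X] [T2Space X] [CompactSpace X] [ChartedSpace (R n) X]
    [IsManifold 𝓘(ℝ, R n) ∞ X],
    (∃ F : X → R N, Smooth (R n) F ∧ ∀ x, AlmostEinsteinAt (std n) lam ε F x) ↔
      ∃ (d : X → X → ℝ) (S : Set ℝ) (f : ℝ → X → R N), (0 : ℝ) ∈ closure (S ∩ Ioi 0) ∧
        ∀ x, CoarseAt (std n) n (vol n) C lam ε d S f x := by
  obtain ⟨C₀, hC₀⟩ := Pool.Agent.N824.C2.main2c n
  refine ⟨C₀, fun C hC lam ε N X _ _ _ _ _ => ?_⟩
  have hmain := hC₀ C hC (R N) (Pool.Agent.N824.C2.NearEin (std n) lam ε) (fun L Q _ h => by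
    obtain ⟨b, hb, h1⟩ := Pool.Agent.N824.C2.nearEin_open (std n) h
    exact ⟨b, hb, fun L' Q' _ h2 h3 => h1 L' Q' h2 h3⟩) X
  refine Iff.trans ?_ (hmain.trans ?_)
  · constructor
    · rintro ⟨F, h1, h2⟩
      refine ⟨F, h1, fun x => ?_⟩
      obtain ⟨A, ⟨k1, k2⟩, k3⟩ := h2 x
      exact ⟨A, k1, k2, k3⟩
    · rintro ⟨F, h1, h2⟩
      refine ⟨F, h1, fun x => ?_⟩
      obtain ⟨A, k1, k2, k3⟩ := h2 x
      exact ⟨A, ⟨k1, k2⟩, k3⟩
  · constructor
    · rintro ⟨d, S, f, h1, h2⟩
      refine ⟨d, S, f, h1, fun x => ?_⟩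
      obtain ⟨A, κ, ρ, τ, k1, k2, k3, k4, k5, k6, k7⟩ := h2 x
      refine ⟨A, κ, ρ, τ, ⟨k1, k2⟩, ⟨k3, k4, k6⟩, k5, fun p hp r hr h0 hrρ => ?_⟩
      obtain ⟨L, Q, δ, c, m1, m2, m3, ⟨m4, m5⟩, m6⟩ := k7 p hp r hr h0 hrρ
      exact ⟨L, Q, δ, m1, m2, m3, ⟨m4, c, m5⟩, m6⟩
    · rintro ⟨d, S, f, h1, h2⟩
      refine ⟨d, S, f, h1, fun x => ?_⟩
      obtain ⟨A, κ, ρ, τ, ⟨k1, k2⟩, ⟨k3, k4, k6⟩, k5, k7⟩ := h2 x
      refine ⟨A, κ, ρ, τ, k1, k2, k3, k4, k5, k6, fun p hp r hr h0 hrρ => ?_⟩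
      obtain ⟨L, Q, δ, m1, m2, m3, ⟨m4, c, m5⟩, m6⟩ := k7 p hp r hr h0 hrρ
      exact ⟨L, Q, δ, c, m1, m2, m3, ⟨m4, m5⟩, m6⟩

end Pool.Agent.Results.MP_ebfab8_gt.CoarseAlmostEinstein
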